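import Pool.Agent.MP_1246c0_nt.H25.SpecA

/-! Row WA: weak approximation with signs. -/

namespace Pool.Agent.MP_1246c0_nt.H25

open NumberField IsDedekindDomain Filter WithZero Pool.Agent.MP_db5b97_nt.H85

namespace WA

variable {L : Type} [Field L] [NumberField L]

theorem sgn (A : Set (L →+* ℝ)) :
    ∃ c : L, c ≠ 0 ∧ ∀ ρ : L →+* ℝ, (ρ ∈ A → ρ c < 0) ∧ (ρ ∉ A → 0 < ρ c) := by
  classical
  let pl : (L →+* ℝ) → InfinitePlace L := fun ρ => InfinitePlace.mk (Complex.ofRealHom.comp ρ)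
  have inj : Function.Injective pl := fun ρ ρ' h => by
    ext y
    rcases InfinitePlace.mk_eq_iff.1 h with e | e <;> simpa using RingHom.congr_fun e y
  let s : InfinitePlace L → L := fun v => if v ∈ pl '' A then -1 else 1
  obtain ⟨c, hc⟩ := (InfinitePlace.denseRange_algebraMap_pi L).exists_dist_lt
    (fun v => WithAbs.toAbs v.1 (s v)) one_pos
  have h : ∀ v : InfinitePlace L, v (s v - c) < 1 := fun v => by
    have := (dist_pi_lt_iff one_pos).1 hc v
    rwa [dist_eq_norm] at this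
  refine ⟨c, fun e => ?_, fun ρ => ?_⟩
  · have := h (Classical.arbitrary _)
    rw [e, sub_zero] at this
    dsimp only [s] at this
    split_ifs at this
    · exact this.ne ((AbsoluteValue.map_neg _ _).trans (map_one _))
    · exact this.ne (map_one _)
  · have h1 : |ρ (s (pl ρ)) - ρ c| < 1 := by
      have := h (pl ρ)
      rw [InfinitePlace.apply, RingHom.comp_apply, map_sub ρ] at this
      exact (Complex.norm_real _).symm.trans_lt this
    rw [abs_lt] at h1
    dsimp only [s] at h1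
    constructor <;> intro h2
    · rw [if_pos (inj.mem_set_image.2 h2), map_neg, map_one] at h1; linarith
    · rw [if_neg (mt inj.mem_set_image.1 h2), map_one] at h1; linarith

theorem ev (w : Sp L) (z : L) (m : ℕ) :
    ∀ᶠ k : ℕ in atTop, ∀ a ∈ w.asIdeal ^ k, w.valuation L (a * z) ≤ exp (-(m : ℤ)) := by
  by_cases h : z = 0
  · simp [h]
  filter_upwards [eventually_ge_atTop (log (w.valuation L z) + m).toNat] with k hk a ha
  have h1 : w.valuation L (a : L) ≤ exp (-(k : ℤ)) :=
    (w.valuation_of_algebraMap a).trans_le ((w.intValuation_le_pow_iff_mem a k).2 ha)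
  rw [map_mul, ← exp_log (x := w.valuation L z) (by simpa using h)]
  refine (mul_le_mul_left h1 _).trans ?_
  rw [← exp_add, exp_le_exp]
  omega

theorem fin (T : Finset (Sp L)) (x : Sp L → Un L) (m : ℕ) :
    ∃ b : L, ∀ w ∈ T, w.valuation L (b / (x w).val - 1) ≤ exp (-(m : ℤ)) := by
  obtain ⟨D, hD⟩ := IsLocalization.exist_integer_multiples (nonZeroDivisors (𝓞 L)) T
    fun w => (x w).val
  choose! y hy using hD
  have D0 : ((D : 𝓞 L) : L) ≠ 0 := by simp
  choose e he using fun w : Sp L => (ev w ((D : 𝓞 L) * (x w).val)⁻¹ m).exists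
  obtain ⟨u, hu⟩ := exists_forall_sub_mem_ideal (s := T) (fun w => w.asIdeal) e
    (fun w _ => w.prime) (fun w _ w' _ h e' => h (HeightOneSpectrum.ext e')) fun w => y w
  refine ⟨u / (D : 𝓞 L), fun w hw => ?_⟩
  convert he w _ (hu w hw) using 2
  have h1 : algebraMap (𝓞 L) L (y w) = (D : 𝓞 L) * (x w).val :=
    (hy w hw).trans (Algebra.smul_def _ _)
  have h2 := (x w).val_ne
  have h3 : ((u - y w : 𝓞 L) : L) = u - (D : 𝓞 L) * (x w).val := by rw [← h1]; exact map_sub _ _ _
  rw [h3]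
  field_simp

end WA

open WA in
theorem rowWA : SWA := by
  intro L _ _ T x m A
  obtain ⟨c, c0, hc⟩ := sgn A
  obtain ⟨b, hb⟩ := fin T x m
  obtain ⟨N, N2, hN⟩ : ∃ N : ℕ, 2 ≤ N ∧ ∀ w ∈ T, (N : 𝓞 L) ∈ w.asIdeal := by
    refine ⟨2 * ∏ w ∈ T, Ideal.absNorm w.asIdeal, Nat.le_mul_of_pos_right _
      (Finset.prod_pos fun w _ => Nat.pos_of_ne_zero (mt Ideal.absNorm_eq_zero_iff.1 w.ne_bot)),
      fun w hw => ?_⟩
    exact Ideal.mem_of_dvd _ (Nat.cast_dvd_cast ((Finset.dvd_prod_of_mem _ hw).mul_left 2))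
      (Ideal.absNorm_mem _)
  have e1 := (eventually_all_finset T).2 fun w _ => ev w (c / (x w).val) m
  have e2 : ∀ᶠ k : ℕ in atTop, ∀ φ : L →+* ℂ, ‖φ b‖ < (N : ℝ) ^ k * ‖φ c‖ :=
    eventually_all.2 fun φ => ((tendsto_pow_atTop_atTop_of_one_lt
      (by exact_mod_cast N2)).atTop_mul_const (by simpa using c0)).eventually_gt_atTop _
  obtain ⟨k, k1, k2⟩ := (e1.and e2).exists
  have b0 : b + (N : L) ^ k * c ≠ 0 := fun h => by
    have φ : L →+* ℂ := Classical.arbitrary _
    have := k2 φ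
    rw [eq_neg_of_add_eq_zero_left h] at this
    simp at this
  refine ⟨Un.mk _ b0, fun w hw => ?_, fun ρ => ?_⟩
  · have h1 := k1 w hw _ (Ideal.pow_mem_pow (hN w hw) k)
    have h2 := (w.valuation L).map_add_le (hb w hw) h1
    convert h2 using 2
    rw [Un.val_sub, Un.val_mk]
    push_cast
    ring
  · have h1 : |ρ b| < (N : ℝ) ^ k * |ρ c| := by simpa using k2 (Complex.ofRealHom.comp ρ)
    rw [Un.val_mk, map_add, map_mul, map_pow, map_natCast]
    rw [abs_lt] at h1
    by_cases h : ρ ∈ A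
    · rw [abs_of_neg ((hc ρ).1 h)] at h1
      exact iff_of_true (by linarith) h
    · rw [abs_of_pos ((hc ρ).2 h)] at h1
      exact iff_of_false (by linarith) h

end Pool.Agent.MP_1246c0_nt.H25
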